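import Pool.Agent.Work.MP_db9399_oc.Interface

/-!
# MP_db9399: block IDX4 of OCB4 (helper39)

Few vertices of a block have possible slots in other clusters as neighbours: three families of linear
tests, the second and the third with passive variables.
-/

set_option autoImplicit false

namespace Pool.Agent.Work.MP_db9399_oc_helper39

open Finset Classical
open Pool.Agent.Work.MP_db9399_all (nb)
open Pool.Agent.Work.MP_db9399_da hiding qV
open Pool.Agent.Work.MP_db9399_xf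
open Pool.Agent.Work.MP_db9399_x4
open Pool.Agent.Work.MP_db9399_oc

universe u

/-! ## Packages -/

lemma ipk_mono {I : Type u} {B B' δ L : ℝ} {m : I → ℕ} {P P' : (I → ℕ) → Prop}
    (h : IPk B δ L m P) (hB : B ≤ B') (hP : ∀ x : I → ℕ, (∀ i, x i < m i) → P x → P' x) :
    IPk B' δ L m P' := by
  obtain ⟨K, hK, S, A, w, μ, W, hT, hx⟩ := h
  refine ⟨K, hK, S, A, w, μ, W, ⟨hT.AS, fun k => (hT.Sc k).trans hB, fun i => (hT.Kc i).trans hB,
    hT.w0, hT.wW, hT.W0, hT.dep⟩, fun x hx' hk => hP x hx' (hx x hx' hk)⟩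

lemma ipk_and {I : Type u} {B B' δ L : ℝ} {m : I → ℕ} {P P' : (I → ℕ) → Prop} (hB : 0 ≤ B)
    (hB' : 0 ≤ B') (h : IPk B δ L m P) (h' : IPk B' δ L m P') :
    IPk (B + B') δ L m (fun x => P x ∧ P' x) := by
  obtain ⟨K, hK, S, A, w, μ, W, hT, hx⟩ := h
  obtain ⟨K', hK', S', A', w', μ', W', hT', hx'⟩ := h'
  refine ⟨K ⊕ K', inferInstance, Sum.elim S S', Sum.elim A A', Sum.elim w w', Sum.elim μ μ',
    Sum.elim W W', ⟨?_, ?_, ?_, ?_, ?_, ?_, ?_⟩, ?_⟩
  · rintro (k | k)
    · exact hT.AS k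
    · exact hT'.AS k
  · rintro (k | k)
    · exact (hT.Sc k).trans (by linarith)
    · exact (hT'.Sc k).trans (by linarith)
  · intro i
    have h1 : (univ.filter (fun k : K ⊕ K' => i ∈ (Sum.elim S S' : K ⊕ K' → Finset I) k)) ⊆
        (univ.filter (fun k => i ∈ S k)).map ⟨Sum.inl, Sum.inl_injective⟩ ∪
          (univ.filter (fun k => i ∈ S' k)).map ⟨Sum.inr, Sum.inr_injective⟩ := by
      intro k hk
      rw [mem_filter] at hk
      rcases k with k | k
      · apply mem_union_left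
        rw [mem_map]
        exact ⟨k, mem_filter.2 ⟨mem_univ _, hk.2⟩, rfl⟩
      · apply mem_union_right
        rw [mem_map]
        exact ⟨k, mem_filter.2 ⟨mem_univ _, hk.2⟩, rfl⟩
    have h2 := (card_le_card h1).trans (card_union_le _ _)
    rw [card_map, card_map] at h2
    have h3 := hT.Kc i
    have h4 := hT'.Kc i
    calc ((univ.filter (fun k : K ⊕ K' => i ∈ (Sum.elim S S' : K ⊕ K' → Finset I) k)).card : ℝ)
        ≤ (((univ.filter (fun k => i ∈ S k)).card + (univ.filter (fun k => i ∈ S' k)).card : ℕ) : ℝ) :=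
          by exact_mod_cast h2
      _ ≤ B + B' := by push_cast; linarith
  · rintro (k | k)
    · exact hT.w0 k
    · exact hT'.w0 k
  · rintro (k | k)
    · exact hT.wW k
    · exact hT'.wW k
  · rintro (k | k)
    · exact hT.W0 k
    · exact hT'.W0 k
  · rintro (k | k)
    · exact hT.dep k
    · exact hT'.dep k
  · intro x hm hk
    exact ⟨hx x hm fun k => hk (Sum.inl k), hx' x hm fun k => hk (Sum.inr k)⟩

/-- a package from a family of tests with indices in `Type` (upper bounds) -/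
lemma ipk_mk {I : Type u} {K : Type} [Fintype K] {B δ L : ℝ} {m : I → ℕ} (S A : K → Finset I)
    (w : K → (I → ℕ) → I → ℝ) (μ W : K → ℝ) {P : (I → ℕ) → Prop}
    (AS : ∀ k, A k ⊆ S k) (Sc : ∀ k, ((S k).card : ℝ) ≤ B)
    (Kc : ∀ i, ((univ.filter (fun k => i ∈ S k)).card : ℝ) ≤ B)
    (w0 : ∀ k x, (∀ j, x j < m j) → ∀ i ∈ A k, 0 ≤ w k x i)
    (wW : ∀ k x, (∀ j, x j < m j) → ∀ i ∈ A k, w k x i ≤ W k)
    (W0 : ∀ k, 0 ≤ W k)
    (dep : ∀ k, ∀ i ∈ A k, ∀ x y : I → ℕ, x i = y i → (∀ j ∈ S k, j ∉ A k → x j = y j) →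
      w k x i = w k y i)
    (hP : ∀ x : I → ℕ, (∀ i, x i < m i) →
      (∀ k, mn m (A k) (w k) x ≤ μ k → ∑ i ∈ A k, w k x i ≤ (1 + δ) * μ k + W k * L) → P x) :
    IPk B δ L m P := by
  refine ⟨ULift.{u} K, inferInstance, fun k => S k.down, fun k => A k.down, fun k => w k.down,
    fun k => μ k.down, fun k => W k.down, ⟨fun k => AS _, fun k => Sc _, ?_, fun k => w0 _,
      fun k => wW _, fun k => W0 _, fun k i hi x y hxy h => dep _ i hi x y hxy
        fun j hj hA => h j (mem_sdiff.2 ⟨hj, hA⟩)⟩, ?_⟩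
  · intro i
    refine le_trans ?_ (Kc i)
    have h1 : (univ.filter (fun k : ULift.{u} K => i ∈ S k.down)).card ≤
        (univ.filter (fun k => i ∈ S k)).card := by
      refine card_le_card_of_injOn (fun k => k.down) ?_ ?_
      · intro k hk
        have := (mem_filter.1 (mem_coe.1 hk)).2
        exact mem_coe.2 (mem_filter.2 ⟨mem_univ _, this⟩)
      · intro k _ k' _ h
        exact ULift.down_injective h
    exact_mod_cast h1
  · intro x hx hk
    exact hP x hx fun k => (hk ⟨k⟩).1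

lemma cfl {K : Type*} [Fintype K] (p : K → Prop) {_ : DecidablePred p} (s : Finset K)
    (h : ∀ k, p k → k ∈ s) : ((univ.filter p).card : ℝ) ≤ s.card := by
  have : univ.filter p ⊆ s := fun k hk => h k (mem_filter.1 hk).2
  exact_mod_cast card_le_card this

lemma cfl0 {K : Type*} [Fintype K] (p : K → Prop) {_ : DecidablePred p}
    (h : ∀ k, ¬ p k) : ((univ.filter p).card : ℝ) = 0 := by
  have : univ.filter p = ∅ := filter_eq_empty_iff.2 fun k _ => h k
  rw [this, card_empty, Nat.cast_zero]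

/-- bound for the mean -/
lemma mn_le {I : Type u} (m : I → ℕ) (A : Finset I) (w : (I → ℕ) → I → ℝ) (x : I → ℕ) (g : I → ℝ)
    (h : ∀ i ∈ A, ∀ y : ℕ → I → ℕ, (∀ a, y a i = a) → (∀ a, ∀ j, j ≠ i → y a j = x j) →
      (∑ a ∈ range (m i), w (y a) i) / m i ≤ g i) : mn m A w x ≤ ∑ i ∈ A, g i := by
  unfold mn
  refine sum_le_sum fun i hi => ?_
  refine h i hi (fun a => Function.update x i a) (fun a => Function.update_self _ _ _) ?_
  intro a j hj
  exact Function.update_of_ne hj _ _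

/-- a residue class in `range (m * d)` -/
lemma sum_mod (m d j : ℕ) (hj : j < m) (c : ℝ) :
    ∑ a ∈ range (m * d), (if a % m = j then c else 0) = d * c := by
  induction d with
  | zero => simp
  | succ d ih =>
    rw [Nat.mul_succ, sum_range_add, ih]
    have h1 : ∑ a ∈ range m, (if (m * d + a) % m = j then c else 0) = c := by
      have h2 : ∀ a ∈ range m, (if (m * d + a) % m = j then c else 0) = if a = j then c else 0 := by
        intro a ha
        rw [Nat.mul_add_mod, Nat.mod_eq_of_lt (mem_range.1 ha)]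
      rw [sum_congr rfl h2, sum_ite_eq', if_pos (mem_range.2 hj)]
    rw [h1]
    push_cast
    ring

/-! ## The frame -/

/-- quarters -/
abbrev Rq (N : ℕ) : Type := Fin N × Bool × Bool

section frame

variable {V : Type u} [Fintype V] {N J : ℕ} (D : OD V N J)

/-- T-edges between different clusters -/
def cr (v w : V) : Prop := Te D.G D.X v w ∧ D.X.cq w ≠ D.X.cq v

/-- quarter of a vertex -/
def qr (v : V) : Rq N := (D.X.P.pc v, D.X.P.sd v, D.X.P.pt v)

/-- the vertices of type B in the quarter `r` -/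
noncomputable def Qr (r : Rq N) : Finset V :=
  univ.filter (fun v => InT D.X Ty.B v ∧ qr D v = r)

/-- cross neighbours -/
noncomputable def cn (v : V) : Finset V := univ.filter (fun w => cr D v w)

/-- the facts which are used -/
structure Fc (a C : ℝ) : Prop where
  sym : ∀ v w, cr D v w → cr D w v
  it : ∀ v w, cr D v w → InT D.X Ty.B v ∧ InT D.X Ty.B w
  ne : ∀ v w, cr D v w → qr D v ≠ qr D w
  deg : ∀ v, ((cn D v).card : ℝ) ≤ a * D.d
  sm : ∀ r, ((∑ v ∈ Qr D r, (cn D v).card : ℕ) : ℝ) ≤ a * (D.d : ℝ) ^ 2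
  sz : ∀ r, ((Qr D r).card : ℝ) ≤ C * D.d

variable {D}

lemma mem_Qr {r : Rq N} {v : V} : v ∈ Qr D r ↔ InT D.X Ty.B v ∧ qr D v = r := by
  simp [Qr]

lemma mem_cn {v w : V} : w ∈ cn D v ↔ cr D v w := by
  simp [cn]

lemma qV_eq {n : Fin N} (hn : D.X.P.ty n = Ty.B) (β i : Bool) : qV D.X n β i = Qr D (n, β, i) := by
  ext v
  rw [mem_Qr]
  unfold qV sV InT qr
  simp only [mem_filter, mem_univ, true_and, Prod.mk.injEq]
  constructor
  · rintro ⟨⟨h1, h2, h3⟩, h4⟩
    exact ⟨⟨h1, by rw [h2]; exact hn⟩, h2, h3, h4⟩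
  · rintro ⟨⟨h1, _⟩, h2, h3, h4⟩
    exact ⟨⟨h1, h2, h3⟩, h4⟩

lemma fc_of_hyp {k : Con} {c' : ℝ} (hk : k.Ok) (H : Hyp k c' D) :
    Fc D ((D.d : ℝ) ^ (-c')) k.C := by
  have hP := H.pc
  have ha : 0 ≤ (D.d : ℝ) ^ (-c') := by positivity
  have hit : ∀ v w, cr D v w → InT D.X Ty.B v ∧ InT D.X Ty.B w := fun v w h => h.1.2
  refine ⟨?_, hit, ?_, ?_, ?_, ?_⟩
  · intro v w h
    exact ⟨⟨h.1.1.symm, h.1.2.2, h.1.2.1⟩, fun e => h.2 e.symm⟩
  · intro v w h e
    have h1 : D.X.P.pc v = D.X.P.pc w := by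
      have := congrArg Prod.fst e
      exact this
    exact h.2 (hP.clp w v (hit v w h).2.1 (hit v w h).1.1 h1.symm)
  · intro v
    by_cases hv : InT D.X Ty.B v
    · have h1 : v ∉ D.X.Hv := by
        intro h2
        have h3 := (H.hv v h2).2
        rw [hv.2] at h3
        exact absurd h3 (by decide)
      refine le_trans ?_ (hP.out v hv.1 h1)
      have h4 : cn D v ⊆ (nb D.G v).filter (fun w => D.X.cq w ≠ D.X.cq v) := by
        intro w hw
        rw [mem_cn] at hw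
        rw [mem_filter]
        refine ⟨?_, hw.2⟩
        unfold nb
        rw [mem_filter]
        exact ⟨mem_univ _, hw.1.1.1⟩
      exact_mod_cast card_le_card h4
    · have h1 : cn D v = ∅ := by
        apply filter_eq_empty_iff.2
        intro w _ hw
        exact hv (hit v w hw).1
      rw [h1, card_empty]
      have : (0 : ℝ) ≤ D.d := Nat.cast_nonneg _
      push_cast
      positivity
  · intro r
    refine le_trans ?_ (hP.xs r.1)
    have h1 : ∑ v ∈ Qr D r, (cn D v).card ≤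
        ∑ v ∈ pV D.X.P r.1, ((nb D.G v).filter (fun w => D.X.cq w ≠ D.X.cq v)).card := by
      have h2 : Qr D r ⊆ pV D.X.P r.1 := by
        intro v hv
        rw [mem_Qr] at hv
        unfold pV
        rw [mem_filter]
        refine ⟨mem_univ _, hv.1.1, ?_⟩
        have := congrArg Prod.fst hv.2
        exact this
      refine le_trans (sum_le_sum ?_) (sum_le_sum_of_subset h2)
      intro v _
      refine card_le_card ?_
      intro w hw
      rw [mem_cn] at hw
      rw [mem_filter]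
      refine ⟨?_, hw.2⟩
      unfold nb
      rw [mem_filter]
      exact ⟨mem_univ _, hw.1.1.1⟩
    exact_mod_cast h1
  · intro r
    rcases (Qr D r).eq_empty_or_nonempty with h | ⟨v, hv⟩
    · rw [h, card_empty]
      have h1 := hk.C1
      have : (0 : ℝ) ≤ D.d := Nat.cast_nonneg _
      push_cast
      positivity
    · rw [mem_Qr] at hv
      obtain ⟨j, hj⟩ := Option.ne_none_iff_exists'.1 (hP.cln v hv.1.1)
      refine le_trans ?_ (hP.clc j)
      have h1 : Qr D r ⊆ univ.filter (fun v => D.X.cq v = some j) := by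
        intro w hw
        rw [mem_Qr] at hw
        rw [mem_filter]
        refine ⟨mem_univ _, ?_⟩
        rw [← hj]
        apply hP.clp w v hw.1.1 hv.1.1
        have h2 := congrArg Prod.fst hw.2
        have h3 := congrArg Prod.fst hv.2
        exact h2.trans h3.symm
      exact_mod_cast card_le_card h1

/-! ## First family -/

/-- the embedding of the vertices -/
def ei (D : OD V N J) : V ↪ D.IV := ⟨Sum.inl, Sum.inl_injective⟩

/-- sum of the cross degrees in a block -/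
noncomputable def l1 (D : OD V N J) (x : D.IV → ℕ) (r : Rq N) (j : ℕ) : ℕ :=
  ∑ v ∈ (Qr D r).filter (fun v => D.tauX x v = j), (cn D v).card

lemma fam1 {a C B δ L : ℝ} (hF : Fc D a C) (ha : 0 ≤ a) (hd : 0 < D.d) (hm : 0 < D.m0)
    (hB1 : C * D.d ≤ B) (hB2 : (D.m0 : ℝ) ≤ B) (hB0 : 0 ≤ B) :
    IPk B δ L D.mv (fun x => ∀ r, ∀ j < D.m0,
      (l1 D x r j : ℝ) ≤ (1 + δ) * (a * (D.d : ℝ) ^ 2 / D.m0) + a * D.d * L) := by
  have hdr : (0 : ℝ) < D.d := by exact_mod_cast hd
  have hmr : (0 : ℝ) < D.m0 := by exact_mod_cast hm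
  refine ipk_mk (K := Rq N × Fin D.m0) (fun k => (Qr D k.1).map (ei D))
    (fun k => (Qr D k.1).map (ei D))
    (fun k x i => Sum.elim (fun v => if x (Sum.inl v) % D.m0 = k.2 then ((cn D v).card : ℝ) else 0)
      (fun _ => 0) i)
    (fun _ => a * (D.d : ℝ) ^ 2 / D.m0) (fun _ => a * D.d) (fun _ => Subset.rfl) ?_ ?_ ?_ ?_ ?_ ?_ ?_
  · intro k
    rw [card_map]
    exact (hF.sz k.1).trans hB1
  · rintro (v | s)
    · refine (cfl _ ({qr D v} ×ˢ univ : Finset (Rq N × Fin D.m0)) ?_).trans ?_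
      · intro k h2
        rw [mem_map] at h2
        obtain ⟨w, hw, e⟩ := h2
        have e1 : w = v := Sum.inl_injective e
        rw [mem_product, mem_singleton]
        exact ⟨by rw [← e1]; exact (mem_Qr.1 hw).2.symm, mem_univ _⟩
      · rw [card_product, card_singleton, one_mul, card_univ, Fintype.card_fin]
        exact hB2
    · refine (cfl0 _ ?_).trans_le hB0
      intro k hk
      rw [mem_map] at hk
      obtain ⟨w, _, e⟩ := hk
      exact Sum.inl_ne_inr e
  · intro k x _ i hi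
    rw [mem_map] at hi
    obtain ⟨v, _, rfl⟩ := hi
    show (0 : ℝ) ≤ if x (Sum.inl v) % D.m0 = k.2 then ((cn D v).card : ℝ) else 0
    split_ifs <;> positivity
  · intro k x _ i hi
    rw [mem_map] at hi
    obtain ⟨v, _, rfl⟩ := hi
    show (if x (Sum.inl v) % D.m0 = k.2 then ((cn D v).card : ℝ) else 0) ≤ a * D.d
    split_ifs
    · exact hF.deg v
    · positivity
  · intro k
    positivity
  · intro k i hi x y hxy _
    rw [mem_map] at hi
    obtain ⟨v, _, rfl⟩ := hi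
    have e : x (Sum.inl v) = y (Sum.inl v) := hxy
    show (if x (Sum.inl v) % D.m0 = k.2 then ((cn D v).card : ℝ) else 0) =
      (if y (Sum.inl v) % D.m0 = k.2 then ((cn D v).card : ℝ) else 0)
    rw [e]
  · intro x hx hk r j hj
    have h1 := hk (r, ⟨j, hj⟩)
    have h7 := h1 ?_
    · rw [sum_map] at h7
      refine le_trans (le_of_eq ?_) h7
      unfold l1
      rw [sum_filter]
      push_cast
      refine sum_congr rfl fun v _ => ?_
      rfl
    · refine (mn_le _ _ _ _ (Sum.elim (fun v => ((cn D v).card : ℝ) / D.m0) (fun _ => 0)) ?_).trans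
        ?_
      · intro i hi y h2 h3
        rw [mem_map] at hi
        obtain ⟨v, _, rfl⟩ := hi
        have h4 : D.mv (ei D v) = D.m0 * D.d := rfl
        have h5 : ∀ a ∈ range (D.m0 * D.d),
            (if y a (Sum.inl v) % D.m0 = j then ((cn D v).card : ℝ) else 0) =
            if a % D.m0 = j then ((cn D v).card : ℝ) else 0 := by
          intro a _
          have : y a (Sum.inl v) = a := h2 a
          rw [this]
        show (∑ a ∈ range (D.mv (ei D v)),
          (if y a (Sum.inl v) % D.m0 = j then ((cn D v).card : ℝ) else 0)) / (D.mv (ei D v) : ℝ) ≤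
            ((cn D v).card : ℝ) / D.m0
        rw [h4, sum_congr rfl h5, sum_mod _ _ _ hj]
        push_cast
        apply le_of_eq
        field_simp
      · rw [sum_map]
        show ∑ v ∈ Qr D r, ((cn D v).card : ℝ) / D.m0 ≤ _
        rw [← sum_div]
        apply div_le_div_of_nonneg_right _ hmr.le
        have h6 := hF.sm r
        push_cast at h6
        exact h6

/-! ## Second family -/

/-- vertices of a block with a cross neighbour in another block -/
noncomputable def l2 (D : OD V N J) (x : D.IV → ℕ) (r : Rq N) (j : ℕ) (r' : Rq N) (j' : ℕ) : ℕ :=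
  ((Qr D r).filter (fun v => D.tauX x v = j ∧
    ∃ w ∈ Qr D r', cr D v w ∧ D.tauX x w = j')).card

lemma fam2 {a C B δ L b1 : ℝ} (hF : Fc D a C) (hd : 0 < D.d) (hm : 0 < D.m0)
    (hB1 : 2 * (C * D.d) ≤ B) (hB2 : 2 * (a * D.d) * ((D.m0 : ℝ) * D.m0) ≤ B) (hB0 : 0 ≤ B)
    (hb1 : b1 / D.m0 ≤ 3) :
    IPk B δ L D.mv (fun x => (∀ r, ∀ j < D.m0, (l1 D x r j : ℝ) ≤ b1) →
      ∀ r r', ∀ j < D.m0, ∀ j' < D.m0, (l2 D x r j r' j' : ℝ) ≤ (1 + δ) * 3 + 1 * L) := by
  have hdr : (0 : ℝ) < D.d := by exact_mod_cast hd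
  have hmr : (0 : ℝ) < D.m0 := by exact_mod_cast hm
  refine ipk_mk (K := (Rq N × Rq N) × (Fin D.m0 × Fin D.m0))
    (fun k => ((Qr D k.1.1).filter (fun v => ∃ w ∈ Qr D k.1.2, cr D v w)).map (ei D) ∪
      ((Qr D k.1.2).filter (fun w => ∃ v ∈ Qr D k.1.1, cr D v w)).map (ei D))
    (fun k => ((Qr D k.1.1).filter (fun v => ∃ w ∈ Qr D k.1.2, cr D v w)).map (ei D))
    (fun k x i => Sum.elim (fun v => if x (Sum.inl v) % D.m0 = k.2.1 ∧
      ∃ w ∈ Qr D k.1.2, cr D v w ∧ x (Sum.inl w) % D.m0 = k.2.2 then (1 : ℝ) else 0)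
      (fun _ => 0) i)
    (fun _ => 3) (fun _ => 1) (fun _ => subset_union_left) ?_ ?_ ?_ ?_ ?_ ?_ ?_
  · intro k
    refine le_trans ?_ hB1
    have h1 := card_union_le (((Qr D k.1.1).filter (fun v => ∃ w ∈ Qr D k.1.2, cr D v w)).map (ei D))
      (((Qr D k.1.2).filter (fun w => ∃ v ∈ Qr D k.1.1, cr D v w)).map (ei D))
    rw [card_map, card_map] at h1
    have h2 := card_filter_le (Qr D k.1.1) (fun v => ∃ w ∈ Qr D k.1.2, cr D v w)
    have h3 := card_filter_le (Qr D k.1.2) (fun w => ∃ v ∈ Qr D k.1.1, cr D v w)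
    have h4 := hF.sz k.1.1
    have h5 := hF.sz k.1.2
    have h6 := h1.trans (Nat.add_le_add h2 h3)
    refine le_trans (b := (((Qr D k.1.1).card + (Qr D k.1.2).card : ℕ) : ℝ)) ?_ ?_
    · exact_mod_cast h6
    · push_cast
      linarith
  · rintro (v | s)
    · refine (cfl _ ((({qr D v} ×ˢ (cn D v).image (qr D)) ∪ ((cn D v).image (qr D) ×ˢ {qr D v})) ×ˢ
        univ : Finset ((Rq N × Rq N) × (Fin D.m0 × Fin D.m0))) ?_).trans ?_
      · intro k h2
        rw [mem_product]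
        refine ⟨?_, mem_univ _⟩
        rw [mem_union, mem_map, mem_map] at h2
        rcases h2 with ⟨w, hw, e⟩ | ⟨w, hw, e⟩
        · have e1 : w = v := Sum.inl_injective e
          subst e1
          rw [mem_filter, mem_Qr] at hw
          obtain ⟨⟨_, h3⟩, w', h4, h5⟩ := hw
          rw [mem_Qr] at h4
          apply mem_union_left
          rw [mem_product, mem_singleton, mem_image]
          exact ⟨h3.symm, w', mem_cn.2 h5, h4.2⟩
        · have e1 : w = v := Sum.inl_injective e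
          subst e1
          rw [mem_filter, mem_Qr] at hw
          obtain ⟨⟨_, h3⟩, w', h4, h5⟩ := hw
          rw [mem_Qr] at h4
          apply mem_union_right
          rw [mem_product, mem_singleton, mem_image]
          exact ⟨⟨w', mem_cn.2 (hF.sym _ _ h5), h4.2⟩, h3.symm⟩
      · refine le_trans ?_ hB2
        rw [card_product]
        have h1 := card_union_le ({qr D v} ×ˢ (cn D v).image (qr D))
          ((cn D v).image (qr D) ×ˢ {qr D v})
        rw [card_product, card_product, card_singleton, one_mul, mul_one] at h1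
        have h2 : ((cn D v).image (qr D)).card ≤ (cn D v).card := card_image_le
        have h3 : (univ : Finset (Fin D.m0 × Fin D.m0)).card = D.m0 * D.m0 := by
          rw [card_univ, Fintype.card_prod, Fintype.card_fin]
        rw [h3]
        have h4 := hF.deg v
        have h5 : (((({qr D v} ×ˢ (cn D v).image (qr D)) ∪
            ((cn D v).image (qr D) ×ˢ {qr D v})).card : ℕ) : ℝ) ≤ 2 * (a * D.d) := by
          have h6 : ((({qr D v} ×ˢ (cn D v).image (qr D)) ∪
            ((cn D v).image (qr D) ×ˢ {qr D v})).card) ≤ (cn D v).card + (cn D v).card := by omega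
          refine le_trans (b := (((cn D v).card + (cn D v).card : ℕ) : ℝ)) (by exact_mod_cast h6) ?_
          push_cast
          linarith
        push_cast
        exact mul_le_mul_of_nonneg_right h5 (by positivity)
    · refine (cfl0 _ ?_).trans_le hB0
      intro k hk
      rw [mem_union, mem_map, mem_map] at hk
      rcases hk with ⟨w, _, e⟩ | ⟨w, _, e⟩ <;> exact Sum.inl_ne_inr e
  · intro k x _ i hi
    rw [mem_map] at hi
    obtain ⟨v, _, rfl⟩ := hi
    show (0 : ℝ) ≤ if _ then (1 : ℝ) else 0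
    split_ifs <;> norm_num
  · intro k x _ i hi
    rw [mem_map] at hi
    obtain ⟨v, _, rfl⟩ := hi
    show (if _ then (1 : ℝ) else 0) ≤ 1
    split_ifs <;> norm_num
  · intro k
    norm_num
  · intro k i hi x y hxy hS
    rw [mem_map] at hi
    obtain ⟨v, hv, rfl⟩ := hi
    have e : x (Sum.inl v) = y (Sum.inl v) := hxy
    rw [mem_filter, mem_Qr] at hv
    have hw : ∀ w ∈ Qr D k.1.2, cr D v w → x (Sum.inl w) = y (Sum.inl w) := by
      intro w hw hvw
      apply hS
      · rw [mem_union, mem_map, mem_map]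
        right
        exact ⟨w, mem_filter.2 ⟨hw, v, mem_Qr.2 hv.1, hvw⟩, rfl⟩
      · rw [mem_map]
        rintro ⟨w', hw', e'⟩
        have e1 : w' = w := Sum.inl_injective e'
        subst e1
        rw [mem_filter, mem_Qr] at hw'
        rw [mem_Qr] at hw
        exact hF.ne _ _ hvw (by rw [hv.1.2, hw'.1.2])
    show (if x (Sum.inl v) % D.m0 = k.2.1 ∧
      ∃ w ∈ Qr D k.1.2, cr D v w ∧ x (Sum.inl w) % D.m0 = k.2.2 then (1 : ℝ) else 0) =
      if y (Sum.inl v) % D.m0 = k.2.1 ∧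
      ∃ w ∈ Qr D k.1.2, cr D v w ∧ y (Sum.inl w) % D.m0 = k.2.2 then (1 : ℝ) else 0
    have hiff : (x (Sum.inl v) % D.m0 = k.2.1 ∧
      ∃ w ∈ Qr D k.1.2, cr D v w ∧ x (Sum.inl w) % D.m0 = k.2.2) ↔
      (y (Sum.inl v) % D.m0 = k.2.1 ∧
      ∃ w ∈ Qr D k.1.2, cr D v w ∧ y (Sum.inl w) % D.m0 = k.2.2) := by
      rw [e]
      constructor
      · rintro ⟨h1, w, h2, h3, h4⟩
        exact ⟨h1, w, h2, h3, by rw [← hw w h2 h3]; exact h4⟩
      · rintro ⟨h1, w, h2, h3, h4⟩
        exact ⟨h1, w, h2, h3, by rw [hw w h2 h3]; exact h4⟩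
    rw [if_congr hiff rfl rfl]
  · intro x hx hk hb r r' j hj j' hj'
    have h1 := hk ((r, r'), (⟨j, hj⟩, ⟨j', hj'⟩))
    have h7 := h1 ?_
    · refine le_trans (le_of_eq ?_) h7
      rw [sum_map]
      show (l2 D x r j r' j' : ℝ) =
        ∑ v ∈ (Qr D r).filter (fun v => ∃ w ∈ Qr D r', cr D v w),
          (if x (Sum.inl v) % D.m0 = j ∧
            ∃ w ∈ Qr D r', cr D v w ∧ x (Sum.inl w) % D.m0 = j' then (1 : ℝ) else 0)
      rw [sum_boole, filter_filter]
      unfold l2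
      norm_cast
      apply congrArg
      apply filter_congr
      intro v _
      constructor
      · rintro ⟨h2, w, h3, h4, h5⟩
        exact ⟨⟨w, h3, h4⟩, h2, w, h3, h4, h5⟩
      · rintro ⟨_, h2, w, h3, h4, h5⟩
        exact ⟨h2, w, h3, h4, h5⟩
    · refine (mn_le _ _ _ _ (Sum.elim (fun v => (if ∃ w ∈ Qr D r', cr D v w ∧
        x (Sum.inl w) % D.m0 = j' then (1 : ℝ) else 0) / D.m0) (fun _ => 0)) ?_).trans ?_
      · intro i hi y h2 h3
        rw [mem_map] at hi
        obtain ⟨v, hv, rfl⟩ := hi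
        have h4 : D.mv (ei D v) = D.m0 * D.d := rfl
        have h5 : ∀ a ∈ range (D.m0 * D.d),
            (if y a (Sum.inl v) % D.m0 = j ∧ ∃ w ∈ Qr D r', cr D v w ∧
              y a (Sum.inl w) % D.m0 = j' then (1 : ℝ) else 0) =
            if a % D.m0 = j then (if ∃ w ∈ Qr D r', cr D v w ∧
              x (Sum.inl w) % D.m0 = j' then (1 : ℝ) else 0) else 0 := by
          intro a _
          have e1 : y a (Sum.inl v) = a := h2 a
          have e2 : ∀ w, cr D v w → y a (Sum.inl w) = x (Sum.inl w) := by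
            intro w hw
            apply h3
            intro e
            have e' : w = v := Sum.inl_injective e
            subst e'
            exact hF.ne _ _ hw rfl
          rw [e1]
          have hiff : (∃ w ∈ Qr D r', cr D v w ∧ y a (Sum.inl w) % D.m0 = j') ↔
              ∃ w ∈ Qr D r', cr D v w ∧ x (Sum.inl w) % D.m0 = j' := by
            constructor
            · rintro ⟨w, h6, h7, h8⟩
              exact ⟨w, h6, h7, by rw [← e2 w h7]; exact h8⟩
            · rintro ⟨w, h6, h7, h8⟩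
              exact ⟨w, h6, h7, by rw [e2 w h7]; exact h8⟩
          by_cases h9 : a % D.m0 = j
          · rw [if_pos h9]
            apply if_congr _ rfl rfl
            rw [hiff]
            exact ⟨fun h => h.2, fun h => ⟨h9, h⟩⟩
          · rw [if_neg h9, if_neg]
            exact fun h => h9 h.1
        show (∑ a ∈ range (D.mv (ei D v)),
          (if y a (Sum.inl v) % D.m0 = j ∧ ∃ w ∈ Qr D r', cr D v w ∧
              y a (Sum.inl w) % D.m0 = j' then (1 : ℝ) else 0)) / (D.mv (ei D v) : ℝ) ≤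
            (if ∃ w ∈ Qr D r', cr D v w ∧
              x (Sum.inl w) % D.m0 = j' then (1 : ℝ) else 0) / D.m0
        rw [h4, sum_congr rfl h5, sum_mod _ _ _ hj]
        push_cast
        apply le_of_eq
        field_simp
      · rw [sum_map]
        show ∑ v ∈ (Qr D r).filter (fun v => ∃ w ∈ Qr D r', cr D v w),
          (if ∃ w ∈ Qr D r', cr D v w ∧
              x (Sum.inl w) % D.m0 = j' then (1 : ℝ) else 0) / D.m0 ≤ 3
        rw [← sum_div]
        refine le_trans ?_ hb1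
        apply div_le_div_of_nonneg_right _ hmr.le
        refine le_trans ?_ (hb r' j' hj')
        rw [sum_boole]
        norm_cast
        unfold l1
        refine le_trans (card_le_card (t := ((Qr D r').filter (fun v => D.tauX x v = j')).biUnion
          (cn D)) ?_) card_biUnion_le
        intro v hv
        obtain ⟨_, w, h6, h7, h8⟩ := mem_filter.1 hv
        rw [mem_biUnion]
        exact ⟨w, mem_filter.2 ⟨h6, h8⟩, mem_cn.2 (hF.sym _ _ h7)⟩

/-! ## Third family -/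

/-- quarters with a cross edge to the quarter `r` -/
noncomputable def nr (D : OD V N J) (r : Rq N) : Finset (Rq N) :=
  ((Qr D r).biUnion (cn D)).image (qr D)

/-- the embedding of the slots of the colour `b` -/
def es (D : OD V N J) (b : Fin (D.d + 2)) : Rq N × Fin D.Bq ↪ D.IV :=
  ⟨fun p => Sum.inr (p.1.1, p.1.2.1, p.1.2.2, b, p.2), by
    rintro ⟨⟨n, β, i⟩, k⟩ ⟨⟨n', β', i'⟩, k'⟩ h
    have h1 := Sum.inr_injective h
    simp only [Prod.mk.injEq] at h1
    obtain ⟨h2, h3, h4, _, h5⟩ := h1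
    simp only [Prod.mk.injEq]
    exact ⟨⟨h2, h3, h4⟩, h5⟩⟩

lemma card_bu {a C : ℝ} (hF : Fc D a C) (r : Rq N) :
    ((((Qr D r).biUnion (cn D)).card : ℕ) : ℝ) ≤ a * (D.d : ℝ) ^ 2 := by
  refine le_trans ?_ (hF.sm r)
  exact_mod_cast card_biUnion_le

lemma card_nr {a C : ℝ} (hF : Fc D a C) (r : Rq N) :
    (((nr D r).card : ℕ) : ℝ) ≤ a * (D.d : ℝ) ^ 2 := by
  refine le_trans ?_ (card_bu hF r)
  unfold nr
  exact_mod_cast card_image_le

lemma nr_symm {a C : ℝ} (hF : Fc D a C) {r r' : Rq N} (h : r' ∈ nr D r) : r ∈ nr D r' := by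
  unfold nr at h ⊢
  rw [mem_image] at h ⊢
  obtain ⟨w, hw, e⟩ := h
  rw [mem_biUnion] at hw
  obtain ⟨v, hv, hvw⟩ := hw
  rw [mem_cn] at hvw
  refine ⟨v, mem_biUnion.2 ⟨w, mem_Qr.2 ⟨(hF.it _ _ hvw).2, e⟩, mem_cn.2 (hF.sym _ _ hvw)⟩, ?_⟩
  exact (mem_Qr.1 hv).2

lemma l2_congr {x y : D.IV → ℕ} {r r' : Rq N} {j j' : ℕ}
    (h : ∀ v ∈ Qr D r, x (Sum.inl v) = y (Sum.inl v) ∧
      ∀ w ∈ cn D v, x (Sum.inl w) = y (Sum.inl w)) : l2 D x r j r' j' = l2 D y r j r' j' := by
  unfold l2 OD.tauX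
  apply congrArg
  apply filter_congr
  intro v hv
  obtain ⟨h1, h2⟩ := h v hv
  rw [h1]
  constructor
  · rintro ⟨h3, w, h4, h5, h6⟩
    exact ⟨h3, w, h4, h5, by rw [← h2 w (mem_cn.2 h5)]; exact h6⟩
  · rintro ⟨h3, w, h4, h5, h6⟩
    exact ⟨h3, w, h4, h5, by rw [h2 w (mem_cn.2 h5)]; exact h6⟩

lemma sum_l2 (x : D.IV → ℕ) (r r' : Rq N) (j : ℕ) :
    ∑ a ∈ range D.m0, l2 D x r j r' a ≤
      ∑ v ∈ (Qr D r).filter (fun v => D.tauX x v = j),
        ((cn D v).filter (fun w => qr D w = r')).card := by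
  have h1 : ∀ a ∈ range D.m0, l2 D x r j r' a =
      ∑ v ∈ (Qr D r).filter (fun v => D.tauX x v = j),
        if ∃ w ∈ Qr D r', cr D v w ∧ D.tauX x w = a then 1 else 0 := by
    intro a _
    unfold l2
    rw [← filter_filter, card_filter]
  rw [sum_congr rfl h1, sum_comm]
  refine sum_le_sum fun v _ => ?_
  rw [← card_filter]
  refine (card_le_card (t := ((cn D v).filter (fun w => qr D w = r')).image (D.tauX x)) ?_).trans
    card_image_le
  intro a ha
  obtain ⟨_, w, h2, h3, h4⟩ := mem_filter.1 ha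
  rw [mem_image]
  exact ⟨w, mem_filter.2 ⟨mem_cn.2 h3, (mem_Qr.1 h2).2⟩, h4⟩

/-- active slots of the colour `b` -/
def ac (D : OD V N J) (q : Fin N → Bool → Bool → ℕ → ℕ) (b : ℕ) (p : Rq N × Fin D.Bq) : Prop :=
  (p.2 : ℕ) < q p.1.1 p.1.2.1 p.1.2.2 b ∧ D.kc p.1.1 p.1.2.1 p.1.2.2 b ≠ 4

lemma fam3 {a C B δ L b1 T : ℝ} (hF : Fc D a C) (q : Fin N → Bool → Bool → ℕ → ℕ)
    (hm : 0 < D.m0) (hT : 0 ≤ T) (_ha : 0 ≤ a)
    (hB1 : a * (D.d : ℝ) ^ 2 * D.Bq + (C * D.d + a * (D.d : ℝ) ^ 2) ≤ B)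
    (hB2 : (1 + a * D.d) * ((D.m0 : ℝ) * (D.d + 2)) ≤ B)
    (hB3 : a * (D.d : ℝ) ^ 2 * ((D.m0 : ℝ) * (D.d + 2)) ≤ B) :
    IPk B δ L D.mv (fun x => (∀ r, ∀ j < D.m0, (l1 D x r j : ℝ) ≤ b1) →
      ∀ r, ∀ j < D.m0, ∀ b : Fin (D.d + 2),
        ∑ p ∈ nr D r ×ˢ (univ : Finset (Fin D.Bq)), (if ac D q b p then
          min (l2 D x r j p.1 (x (es D b p)) : ℝ) T else 0) ≤
          (1 + δ) * (D.Bq * (b1 / D.m0)) + T * L) := by
  have hmr : (0 : ℝ) < D.m0 := by exact_mod_cast hm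
  have hdr : (0 : ℝ) ≤ D.d := Nat.cast_nonneg _
  refine ipk_mk (K := Rq N × (Fin D.m0 × Fin (D.d + 2)))
    (fun k => ((nr D k.1) ×ˢ (univ : Finset (Fin D.Bq))).map (es D k.2.2) ∪
      (Qr D k.1 ∪ (Qr D k.1).biUnion (cn D)).map (ei D))
    (fun k => ((nr D k.1) ×ˢ (univ : Finset (Fin D.Bq))).map (es D k.2.2))
    (fun k x i => Sum.elim (fun _ => (0 : ℝ)) (fun s =>
      if ac D q k.2.2 ((s.1, s.2.1, s.2.2.1), s.2.2.2.2) then
        min (l2 D x k.1 k.2.1 (s.1, s.2.1, s.2.2.1) (x (Sum.inr s)) : ℝ) T else 0) i)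
    (fun _ => D.Bq * (b1 / D.m0)) (fun _ => T) (fun _ => subset_union_left) ?_ ?_ ?_ ?_ ?_ ?_ ?_
  · intro k
    refine le_trans ?_ hB1
    have h1 := card_union_le (((nr D k.1) ×ˢ (univ : Finset (Fin D.Bq))).map (es D k.2.2))
      ((Qr D k.1 ∪ (Qr D k.1).biUnion (cn D)).map (ei D))
    rw [card_map, card_map, card_product, card_univ, Fintype.card_fin] at h1
    have h2 := card_union_le (Qr D k.1) ((Qr D k.1).biUnion (cn D))
    have h3 := h1.trans (Nat.add_le_add_left h2 _)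
    refine le_trans (b := ((((nr D k.1).card * D.Bq + ((Qr D k.1).card +
      ((Qr D k.1).biUnion (cn D)).card)) : ℕ) : ℝ)) (by exact_mod_cast h3) ?_
    push_cast
    have h4 := card_nr hF k.1
    have h5 := card_bu hF k.1
    have h6 := hF.sz k.1
    have h7 : (0 : ℝ) ≤ D.Bq := Nat.cast_nonneg _
    have h8 := mul_le_mul_of_nonneg_right h4 h7
    linarith
  · rintro (v | s)
    · refine (cfl _ (({qr D v} ∪ (cn D v).image (qr D)) ×ˢ
        univ : Finset (Rq N × (Fin D.m0 × Fin (D.d + 2)))) ?_).trans ?_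
      · intro k h2
        rw [mem_product]
        refine ⟨?_, mem_univ _⟩
        rw [mem_union, mem_map, mem_map] at h2
        rcases h2 with ⟨p, _, e⟩ | ⟨w, hw, e⟩
        · exact absurd e Sum.inr_ne_inl
        · have e1 : w = v := Sum.inl_injective e
          subst e1
          rw [mem_union, mem_biUnion] at hw
          rcases hw with hw | ⟨v', hv', hw⟩
          · apply mem_union_left
            rw [mem_singleton]
            exact (mem_Qr.1 hw).2.symm
          · apply mem_union_right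
            rw [mem_image]
            exact ⟨v', mem_cn.2 (hF.sym _ _ (mem_cn.1 hw)), (mem_Qr.1 hv').2⟩
      · refine le_trans ?_ hB2
        rw [card_product, card_univ, Fintype.card_prod, Fintype.card_fin, Fintype.card_fin]
        have h1 := card_union_le {qr D v} ((cn D v).image (qr D))
        rw [card_singleton] at h1
        have h2 : ((cn D v).image (qr D)).card ≤ (cn D v).card := card_image_le
        have h4 := hF.deg v
        have h5 : ((({qr D v} ∪ (cn D v).image (qr D)).card : ℕ) : ℝ) ≤ 1 + a * D.d := by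
          have h6 : ({qr D v} ∪ (cn D v).image (qr D)).card ≤ 1 + (cn D v).card := by omega
          refine le_trans (b := ((1 + (cn D v).card : ℕ) : ℝ)) (by exact_mod_cast h6) ?_
          push_cast
          linarith
        push_cast
        exact mul_le_mul_of_nonneg_right h5 (by positivity)
    · refine (cfl _ ((nr D (s.1, s.2.1, s.2.2.1)) ×ˢ
        univ : Finset (Rq N × (Fin D.m0 × Fin (D.d + 2)))) ?_).trans ?_
      · intro k h2
        rw [mem_product]
        refine ⟨?_, mem_univ _⟩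
        rw [mem_union, mem_map, mem_map] at h2
        rcases h2 with ⟨p, hp, e⟩ | ⟨w, hw, e⟩
        · have e1 := Sum.inr_injective e
          have e2 : p.1 = (s.1, s.2.1, s.2.2.1) := by rw [← e1]
          rw [← e2]
          exact nr_symm hF (mem_product.1 hp).1
        · exact absurd e Sum.inl_ne_inr
      · refine le_trans ?_ hB3
        rw [card_product, card_univ, Fintype.card_prod, Fintype.card_fin, Fintype.card_fin]
        push_cast
        exact mul_le_mul_of_nonneg_right (card_nr hF _) (by positivity)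
  · intro k x _ i hi
    rw [mem_map] at hi
    obtain ⟨p, _, rfl⟩ := hi
    show (0 : ℝ) ≤ if _ then min ((_ : ℕ) : ℝ) T else 0
    split_ifs
    · exact le_min (Nat.cast_nonneg _) hT
    · exact le_rfl
  · intro k x _ i hi
    rw [mem_map] at hi
    obtain ⟨p, _, rfl⟩ := hi
    show (if _ then min ((_ : ℕ) : ℝ) T else 0) ≤ T
    split_ifs
    · exact min_le_right _ _
    · exact hT
  · intro k
    exact hT
  · intro k i hi x y hxy hS
    rw [mem_map] at hi
    obtain ⟨p, hp, rfl⟩ := hi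
    have hS' : ∀ v ∈ (Qr D k.1 ∪ (Qr D k.1).biUnion (cn D)), x (Sum.inl v) = y (Sum.inl v) := by
      intro v hv
      apply hS
      · rw [mem_union]
        right
        rw [mem_map]
        exact ⟨v, hv, rfl⟩
      · rw [mem_map]
        rintro ⟨p', _, e⟩
        exact Sum.inr_ne_inl e
    have e : x (es D k.2.2 p) = y (es D k.2.2 p) := hxy
    show (if ac D q k.2.2 p then
        min (l2 D x k.1 k.2.1 p.1 (x (es D k.2.2 p)) : ℝ) T else 0) =
      (if ac D q k.2.2 p then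
        min (l2 D y k.1 k.2.1 p.1 (y (es D k.2.2 p)) : ℝ) T else 0)
    rw [e, l2_congr (y := y)]
    intro v hv
    refine ⟨hS' v (mem_union_left _ hv), fun w hw => hS' w (mem_union_right _ ?_)⟩
    rw [mem_biUnion]
    exact ⟨v, hv, hw⟩
  · intro x hx hk hb r j hj b
    have h1 := hk (r, (⟨j, hj⟩, b))
    have h7 := h1 ?_
    · refine le_trans (le_of_eq ?_) h7
      rw [sum_map]
      rfl
    · refine (mn_le _ _ _ _ (Sum.elim (fun _ => (0 : ℝ)) (fun s =>
        ((∑ v ∈ (Qr D r).filter (fun v => D.tauX x v = j),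
          ((cn D v).filter (fun w => qr D w = (s.1, s.2.1, s.2.2.1))).card : ℕ) : ℝ) / D.m0))
            ?_).trans ?_
      · intro i hi y h2 h3
        rw [mem_map] at hi
        obtain ⟨p, hp, rfl⟩ := hi
        show (∑ a ∈ range D.m0, (if ac D q b p then
          min (l2 D (y a) r j p.1 (y a (es D b p)) : ℝ) T else 0)) / (D.m0 : ℝ) ≤
            ((∑ v ∈ (Qr D r).filter (fun v => D.tauX x v = j),
          ((cn D v).filter (fun w => qr D w = p.1)).card : ℕ) : ℝ) / D.m0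
        apply div_le_div_of_nonneg_right _ hmr.le
        refine le_trans ?_ (Nat.cast_le.2 (sum_l2 x r p.1 j))
        rw [Nat.cast_sum]
        refine sum_le_sum fun a _ => ?_
        have e1 : y a (es D b p) = a := h2 a
        have e2 : l2 D (y a) r j p.1 a = l2 D x r j p.1 a := by
          apply l2_congr
          intro v hv
          refine ⟨h3 a _ Sum.inl_ne_inr, fun w hw => h3 a _ Sum.inl_ne_inr⟩
        rw [e1, e2]
        split_ifs
        · exact min_le_left _ _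
        · exact Nat.cast_nonneg _
      · rw [sum_map, sum_product]
        show ∑ r' ∈ nr D r, ∑ k' : Fin D.Bq, ((∑ v ∈ (Qr D r).filter (fun v => D.tauX x v = j),
          ((cn D v).filter (fun w => qr D w = r')).card : ℕ) : ℝ) / D.m0 ≤ D.Bq * (b1 / D.m0)
        simp only [sum_const, card_univ, Fintype.card_fin, nsmul_eq_mul]
        rw [← mul_sum]
        apply mul_le_mul_of_nonneg_left _ (Nat.cast_nonneg _)
        rw [← sum_div]
        apply div_le_div_of_nonneg_right _ hmr.le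
        refine le_trans ?_ (hb r j hj)
        rw [← Nat.cast_sum]
        unfold l1
        rw [sum_comm]
        apply Nat.cast_le.2
        refine sum_le_sum fun v _ => ?_
        rw [sum_card_fiberwise_eq_card_filter]
        exact card_filter_le _ _

/-! ## From the families to `I4` -/

lemma q_le_Bq {q : Fin N → Bool → Bool → ℕ → ℕ} (hq : D.Dem q) (n : Fin N) (β i : Bool) (b : ℕ)
    (h : D.kc n β i b ≠ 4) : q n β i b ≤ D.Bq := by
  unfold OD.Bq
  by_cases h1 : D.kc n β i b = 1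
  · have := hq.q1 n β i b h1
    omega
  · have := hq.q3 n β i b h1 h
    omega

lemma det {q : Fin N → Bool → Bool → ℕ → ℕ} (hq : D.Dem q) {c' T U : ℝ} {x : D.IV → ℕ}
    (hx : ∀ i, x i < D.mv i)
    (h2 : ∀ r r', ∀ j < D.m0, ∀ j' < D.m0, (l2 D x r j r' j' : ℝ) ≤ T)
    (h3 : ∀ r, ∀ j < D.m0, ∀ b : Fin (D.d + 2),
        ∑ p ∈ nr D r ×ˢ (univ : Finset (Fin D.Bq)), (if ac D q b p then
          min (l2 D x r j p.1 (x (es D b p)) : ℝ) T else 0) ≤ U)
    (hU : U ≤ (D.d : ℝ) ^ (3 * c' / 8)) : D.I4 c' q (D.tauX x) (D.sgX x) := by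
  constructor
  intro n β i b j hn hb hj
  refine le_trans ?_ ((h3 (n, β, i) j hj ⟨b, hb⟩).trans hU)
  have h4 : ∀ p ∈ nr D (n, β, i) ×ˢ (univ : Finset (Fin D.Bq)), (if ac D q b p then
      min (l2 D x (n, β, i) j p.1 (x (es D ⟨b, hb⟩ p)) : ℝ) T else 0) =
      (if ac D q b p then (l2 D x (n, β, i) j p.1 (x (es D ⟨b, hb⟩ p)) : ℝ) else 0) := by
    intro p _
    split_ifs
    · exact min_eq_left (h2 _ _ j hj _ (hx (es D ⟨b, hb⟩ p)))
    · rfl
  rw [sum_congr rfl h4, ← sum_filter, qV_eq hn]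
  norm_cast
  refine le_trans (card_le_card (t := ((nr D (n, β, i) ×ˢ (univ : Finset (Fin D.Bq))).filter
    (fun p => ac D q b p)).biUnion (fun p => (Qr D (n, β, i)).filter (fun v => D.tauX x v = j ∧
      ∃ w ∈ Qr D p.1, cr D v w ∧ D.tauX x w = x (es D ⟨b, hb⟩ p)))) ?_) card_biUnion_le
  intro v hv
  rw [mem_filter] at hv
  obtain ⟨hv1, hv2, w, hw1, hw2, hw3, hw4, k', hk1, hk2⟩ := hv
  have hB := hk1.trans_le (q_le_Bq hq _ _ _ _ hw4)
  have hcr : cr D v w := ⟨hw1, hw2⟩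
  rw [mem_biUnion]
  refine ⟨(qr D w, ⟨k', hB⟩), ?_, ?_⟩
  · rw [mem_filter, mem_product]
    refine ⟨⟨?_, mem_univ _⟩, hk1, hw4⟩
    unfold nr
    rw [mem_image]
    exact ⟨w, mem_biUnion.2 ⟨v, hv1, mem_cn.2 hcr⟩, rfl⟩
  · rw [mem_filter]
    refine ⟨hv1, hv2, w, mem_Qr.2 ⟨hw3, rfl⟩, hcr, ?_⟩
    rw [← hk2]
    unfold OD.sgX
    rw [dif_pos (⟨hb, hB⟩ : b < D.d + 2 ∧ k' < D.Bq)]
    rfl

end frame

/-! ## Numbers -/

open Filter in
lemma num (C : ℝ) (X : ℕ) (c' : ℝ) (hc : 0 < c') (hc2 : c' ≤ 1 / 2) : ∃ d0 : ℕ, ∀ d : ℕ,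
    d0 ≤ d → 10 ≤ (d : ℝ) ∧ C ≤ d ∧ 6 ≤ (d : ℝ) ^ (1 - c' / 2) ∧ 4 ≤ (Real.log d) ^ 2 ∧
      (Real.log d) ^ 2 ≤ (d : ℝ) ^ (c' / 2) ∧
      (1 + 1 / 200) * (((d : ℝ) ^ (c' / 4) + X) * 3) + 2 * (Real.log d) ^ 2 * (Real.log d) ^ 2 ≤
        (d : ℝ) ^ (3 * c' / 8) := by
  have t1 : ∀ r : ℝ, 0 < r → ∀ K : ℝ, ∀ᶠ d : ℕ in atTop, K ≤ (d : ℝ) ^ r := by
    intro r hr K
    exact ((tendsto_rpow_atTop hr).comp tendsto_natCast_atTop_atTop).eventually_ge_atTop K
  have t2 : ∀ K : ℝ, ∀ᶠ d : ℕ in atTop, K ≤ Real.log d := by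
    intro K
    exact (Real.tendsto_log_atTop.comp tendsto_natCast_atTop_atTop).eventually_ge_atTop K
  have t3 : ∀ r : ℝ, 0 < r → ∀ᶠ d : ℕ in atTop, Real.log d ≤ (d : ℝ) ^ r := by
    intro r hr
    have h1 := (isLittleO_log_rpow_atTop hr).bound (c := 1) one_pos
    have h2 := tendsto_natCast_atTop_atTop (R := ℝ) |>.eventually h1
    filter_upwards [h2] with d h3
    rw [one_mul, Real.norm_eq_abs, Real.norm_eq_abs, abs_of_nonneg (a := (d : ℝ) ^ r)
      (by positivity)] at h3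
    exact (le_abs_self _).trans h3
  have e0 : ∀ᶠ d : ℕ in atTop, (10 : ℝ) ≤ d := by
    filter_upwards [eventually_ge_atTop 10] with d hd
    exact_mod_cast hd
  have e1 : ∀ᶠ d : ℕ in atTop, C ≤ (d : ℝ) :=
    tendsto_natCast_atTop_atTop.eventually_ge_atTop C
  have hall : ∀ᶠ d : ℕ in atTop, 10 ≤ (d : ℝ) ∧ C ≤ d ∧ 6 ≤ (d : ℝ) ^ (1 - c' / 2) ∧
      4 ≤ (Real.log d) ^ 2 ∧ (Real.log d) ^ 2 ≤ (d : ℝ) ^ (c' / 2) ∧
      (1 + 1 / 200) * (((d : ℝ) ^ (c' / 4) + X) * 3) + 2 * (Real.log d) ^ 2 * (Real.log d) ^ 2 ≤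
        (d : ℝ) ^ (3 * c' / 8) := by
    filter_upwards [e0, e1, t1 (1 - c' / 2) (by linarith) 6, t2 2, t3 (c' / 4) (by linarith),
      t3 (c' / 16) (by linarith), t1 (c' / 8) (by linarith) 10,
      t1 (c' / 8) (by linarith) X] with d h0 h1 h2 h3 h4 h5 h6 h7
    have hd0 : (0 : ℝ) < d := by linarith
    have hl0 : 0 ≤ Real.log d := by linarith
    refine ⟨h0, h1, h2, by nlinarith, ?_, ?_⟩
    · have h8 : (d : ℝ) ^ (c' / 2) = ((d : ℝ) ^ (c' / 4)) ^ 2 := by
        rw [← Real.rpow_natCast, ← Real.rpow_mul hd0.le]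
        congr 1
        push_cast
        ring
      rw [h8]
      exact pow_le_pow_left₀ hl0 h4 2
    · have h8 : (d : ℝ) ^ (c' / 4) = ((d : ℝ) ^ (c' / 16)) ^ 4 := by
        rw [← Real.rpow_natCast, ← Real.rpow_mul hd0.le]
        congr 1
        push_cast
        ring
      have h9 : (Real.log d) ^ 2 * (Real.log d) ^ 2 ≤ (d : ℝ) ^ (c' / 4) := by
        rw [h8]
        calc (Real.log d) ^ 2 * (Real.log d) ^ 2 = (Real.log d) ^ 4 := by ring
          _ ≤ ((d : ℝ) ^ (c' / 16)) ^ 4 := pow_le_pow_left₀ hl0 h5 4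
      have h10 : (d : ℝ) ^ (3 * c' / 8) = (d : ℝ) ^ (c' / 8) * (d : ℝ) ^ (c' / 4) := by
        rw [← Real.rpow_add hd0]
        congr 1
        ring
      have h11 : (d : ℝ) ^ (c' / 4) = (d : ℝ) ^ (c' / 8) * (d : ℝ) ^ (c' / 8) := by
        rw [← Real.rpow_add hd0]
        congr 1
        ring
      rw [h10]
      rw [h11] at h9 ⊢
      set y := (d : ℝ) ^ (c' / 8)
      have hX : (X : ℝ) ≤ y * y := by nlinarith
      nlinarith [mul_nonneg (sub_nonneg.2 h6) (mul_self_nonneg y)]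
  exact eventually_atTop.1 hall

lemma pol1 {z : ℝ} (hz : 10 ≤ z) : 10 * z ≤ z ^ 2 ∧ 10 * z ^ 2 ≤ z ^ 3 ∧ 10 * z ^ 3 ≤ z ^ 4 ∧
    10 * z ^ 4 ≤ z ^ 5 := by
  have h0 : (0 : ℝ) ≤ z := by linarith
  refine ⟨?_, ?_, ?_, ?_⟩
  · calc 10 * z ≤ z * z := mul_le_mul_of_nonneg_right hz h0
      _ = z ^ 2 := by ring
  · calc 10 * z ^ 2 ≤ z * z ^ 2 := mul_le_mul_of_nonneg_right hz (by positivity)
      _ = z ^ 3 := by ring
  · calc 10 * z ^ 3 ≤ z * z ^ 3 := mul_le_mul_of_nonneg_right hz (by positivity)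
      _ = z ^ 4 := by ring
  · calc 10 * z ^ 4 ≤ z * z ^ 4 := mul_le_mul_of_nonneg_right hz (by positivity)
      _ = z ^ 5 := by ring

lemma pol2 {z : ℝ} (hz : 10 ≤ z) : (z ^ 20 + z ^ 20) + z ^ 20 ≤ z ^ (40 : ℝ) := by
  have h1 : z ^ (40 : ℝ) = z ^ 20 * z ^ 20 := by
    rw [← pow_add]
    norm_num
  have h3 : 3 ≤ z ^ 20 := by
    calc (3 : ℝ) ≤ z := by linarith
      _ ≤ z ^ 20 := le_self_pow₀ (by linarith) (by norm_num)
  rw [h1]
  calc (z ^ 20 + z ^ 20) + z ^ 20 = 3 * z ^ 20 := by ring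
    _ ≤ z ^ 20 * z ^ 20 := mul_le_mul_of_nonneg_right h3 (by positivity)

lemma pol3 {y m : ℝ} (hy : 0 < y) (hm : 0 < m) (h : 5 / 6 * y ≤ m) : y ^ 2 / m ≤ 6 / 5 * y := by
  rw [div_le_iff₀ hm]
  nlinarith

lemma pol4 {z m : ℝ} (hz : 10 ≤ z) (hm0 : 0 ≤ m) (hm : m ≤ z) :
    m * (z + 2) ≤ 2 * z ^ 2 ∧ m * m ≤ z ^ 2 := by
  constructor
  · calc m * (z + 2) ≤ z * (2 * z) := mul_le_mul hm (by linarith) (by linarith) (by linarith)
      _ = 2 * z ^ 2 := by ring
  · calc m * m ≤ z * z := mul_le_mul hm hm hm0 (by linarith)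
      _ = z ^ 2 := by ring

/-- IDX4 -/
theorem stmt_IDX4 : Stmt_IDX4.{u} := by
  intro k hk
  refine ⟨⟨fun _ => 1, fun _ _ => 1, fun _ _ _ => 1, fun _ _ _ _ => 1, fun _ _ _ _ _ => 1⟩,
    ⟨fun _ _ => one_pos, fun _ _ _ _ => one_pos, fun _ _ _ _ _ _ => one_pos,
      fun _ _ _ _ _ _ _ _ => one_pos, fun _ _ _ _ _ _ _ _ _ _ => one_pos⟩, ?_⟩
  intro J S c' hS hc hc2
  obtain ⟨d0, h0⟩ := num k.C (k.X1 + 5 * KX4 k.C k.πk + 5) c' hc hc2
  refine ⟨d0, ?_⟩
  intro V _ N D hd hSD H q hq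
  obtain ⟨n0, n1, n2, n3, n4, n5⟩ := h0 D.d hd
  have hF := fc_of_hyp hk H
  have hdr : (0 : ℝ) < D.d := by linarith
  have hdn : 0 < D.d := by exact_mod_cast hdr
  set L := (Real.log D.d) ^ 2 with hL
  set a := (D.d : ℝ) ^ (-c') with ha
  set y := (D.d : ℝ) ^ (1 - c' / 2) with hy
  have ha0 : 0 < a := Real.rpow_pos_of_pos hdr _
  have ha1 : a ≤ 1 := Real.rpow_le_one_of_one_le_of_nonpos (by linarith) (by linarith)
  have hm1 : (D.m0 : ℝ) ≤ y := by
    rw [H.m0]
    exact Nat.floor_le (by positivity)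
  have hm2 : y < D.m0 + 1 := by
    rw [H.m0]
    exact Nat.lt_floor_add_one _
  have hm3 : 5 / 6 * y ≤ D.m0 := by linarith
  have hmr : (0 : ℝ) < D.m0 := by linarith
  have hmn : 0 < D.m0 := by exact_mod_cast hmr
  have hmd : (D.m0 : ℝ) ≤ D.d := by
    refine hm1.trans ?_
    calc y ≤ (D.d : ℝ) ^ (1 : ℝ) := Real.rpow_le_rpow_of_exponent_le (by linarith) (by linarith)
      _ = D.d := Real.rpow_one _
  have hay : a * (D.d : ℝ) ^ 2 = y ^ 2 := by
    rw [ha, hy, ← Real.rpow_natCast, ← Real.rpow_natCast, ← Real.rpow_add hdr,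
      ← Real.rpow_mul hdr.le]
    congr 1
    push_cast
    ring
  have hadL : a * D.d * L ≤ y := by
    have h1 : a * D.d * (D.d : ℝ) ^ (c' / 2) = y := by
      rw [ha, hy]
      nth_rewrite 2 [← Real.rpow_one (D.d : ℝ)]
      rw [← Real.rpow_add hdr, ← Real.rpow_add hdr]
      congr 1
      ring
    rw [← h1]
    exact mul_le_mul_of_nonneg_left n4 (by positivity)
  set b1 := (1 + 1 / 200) * (a * (D.d : ℝ) ^ 2 / D.m0) + a * D.d * L with hb1
  have hb3 : b1 / D.m0 ≤ 3 := by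
    rw [div_le_iff₀ hmr, hb1, hay]
    have h1 : y ^ 2 / D.m0 ≤ 6 / 5 * y := pol3 (by linarith) hmr hm3
    linarith
  have hb0 : 0 ≤ b1 / D.m0 := by positivity
  have hL0 : 0 ≤ L := by positivity
  have hX0 : (D.X0 : ℝ) ≤ (D.d : ℝ) ^ (c' / 4) := by
    rw [H.X0]
    exact Nat.floor_le (by positivity)
  have hBq : (D.Bq : ℝ) ≤ (D.d : ℝ) ^ (c' / 4) + ((k.X1 + 5 * KX4 k.C k.πk + 5 : ℕ) : ℝ) := by
    unfold OD.Bq
    rw [H.X1, H.K]
    push_cast
    linarith
  have hBq0 : (0 : ℝ) ≤ D.Bq := Nat.cast_nonneg _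
  have hU : (1 + 1 / 200) * (D.Bq * (b1 / D.m0)) + 2 * L * L ≤ (D.d : ℝ) ^ (3 * c' / 8) := by
    refine le_trans ?_ n5
    have h1 : D.Bq * (b1 / D.m0) ≤
        ((D.d : ℝ) ^ (c' / 4) + ((k.X1 + 5 * KX4 k.C k.πk + 5 : ℕ) : ℝ)) * 3 :=
      mul_le_mul hBq hb3 hb0 (hBq0.trans hBq)
    linarith
  have hBd : (D.Bq : ℝ) ≤ D.d := by
    have h1 : (D.d : ℝ) ^ (3 * c' / 8) ≤ D.d := by
      calc (D.d : ℝ) ^ (3 * c' / 8) ≤ (D.d : ℝ) ^ (1 : ℝ) :=
            Real.rpow_le_rpow_of_exponent_le (by linarith) (by linarith)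
        _ = D.d := Real.rpow_one _
    have h2 : 0 ≤ 2 * L * L := by positivity
    have h3 := hBq0.trans hBq
    linarith
  have hC0 : 0 ≤ k.C := by linarith [hk.C1]
  set z := (D.d : ℝ) with hz
  have hp : z ^ 5 ≤ z ^ 20 := pow_le_pow_right₀ (by linarith) (by norm_num)
  have z2 : (0 : ℝ) < z ^ 2 := by positivity
  have z3 : (0 : ℝ) < z ^ 3 := by positivity
  obtain ⟨z12, z23, z34, z45⟩ := pol1 n0
  have hCd : k.C * z ≤ z ^ 2 := by
    rw [sq]
    exact mul_le_mul_of_nonneg_right n1 hdr.le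
  have haz : a * z ≤ z := mul_le_of_le_one_left hdr.le ha1
  have haz2 : a * z ^ 2 ≤ z ^ 2 := mul_le_of_le_one_left z2.le ha1
  have haz0 : 0 ≤ a * z := by positivity
  have haz20 : 0 ≤ a * z ^ 2 := by positivity
  obtain ⟨hmz, hmm⟩ := pol4 n0 hmr.le hmd
  have hmz0 : 0 ≤ (D.m0 : ℝ) * (z + 2) := by positivity
  have f1 := fam1 (B := z ^ 20) (δ := 1 / 200) (L := L) hF ha0.le hdn hmn (by linarith)
    (by linarith) (by positivity)
  have f2 := fam2 (B := z ^ 20) (δ := 1 / 200) (L := L) (b1 := b1) hF hdn hmn (by linarith)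
    (by
      have h1 : 2 * (a * z) * ((D.m0 : ℝ) * D.m0) ≤ 2 * z * z ^ 2 :=
        mul_le_mul (by linarith) hmm (by positivity) (by positivity)
      have h2 : 2 * z * z ^ 2 = 2 * z ^ 3 := by ring
      linarith) (by positivity) hb3
  have f3 := fam3 (B := z ^ 20) (δ := 1 / 200) (L := L) (b1 := b1) (T := 2 * L) hF q hmn
    (by positivity) ha0.le
    (by
      have h1 : a * z ^ 2 * D.Bq ≤ z ^ 2 * z := mul_le_mul haz2 hBd hBq0 (by positivity)
      have h2 : z ^ 2 * z = z ^ 3 := by ring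
      linarith)
    (by
      have h1 : (1 + a * z) * ((D.m0 : ℝ) * (z + 2)) ≤ (2 * z) * (2 * z ^ 2) :=
        mul_le_mul (by linarith) hmz hmz0 (by positivity)
      have h2 : (2 * z) * (2 * z ^ 2) = 4 * z ^ 3 := by ring
      linarith)
    (by
      have h1 : a * z ^ 2 * ((D.m0 : ℝ) * (z + 2)) ≤ z ^ 2 * (2 * z ^ 2) :=
        mul_le_mul haz2 hmz hmz0 (by positivity)
      have h2 : z ^ 2 * (2 * z ^ 2) = 2 * z ^ 4 := by ring
      linarith)
  have hB := pol2 n0
  refine ipk_mono (ipk_and (by positivity) (by positivity)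
    (ipk_and (by positivity) (by positivity) f1 f2) f3) hB ?_
  rintro x hx ⟨⟨p1, p2⟩, p3⟩
  refine det hq (T := 2 * L) hx ?_ (p3 p1) hU
  intro r r' j hj j' hj'
  refine (p2 p1 r r' j hj j' hj').trans ?_
  linarith

end Pool.Agent.Work.MP_db9399_oc_helper39
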