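import Pool.Agent.Work.MP_db9399_oc.Interface

/-!
# MP_db9399: block SAS of OCB4 (helper39)

Everything except `c0`: from HRD, RSV, DEM, AVB, IDX0 - IDX5, IDL, GRD, LRG.
-/

set_option autoImplicit false

namespace Pool.Agent.Work.MP_db9399_oc_helper39

open Finset Classical
open Pool.Agent.Work.MP_db9399_xf
open Pool.Agent.Work.MP_db9399_x4
open Pool.Agent.Work.MP_db9399_oc

universe u

/-- minimum of two threshold functions -/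
noncomputable def thrMin (T T' : Thr) : Thr where
  π0 := fun ρ => min (T.π0 ρ) (T'.π0 ρ)
  κ0 := fun ρ π => min (T.κ0 ρ π) (T'.κ0 ρ π)
  ε0 := fun ρ π κ => min (T.ε0 ρ π κ) (T'.ε0 ρ π κ)
  ζ0 := fun ρ π κ ε => min (T.ζ0 ρ π κ ε) (T'.ζ0 ρ π κ ε)
  θ0 := fun ρ π κ ε ζ => min (T.θ0 ρ π κ ε ζ) (T'.θ0 ρ π κ ε ζ)

lemma thrMin_pos {T T' : Thr} (h : T.Pos) (h' : T'.Pos) : (thrMin T T').Pos where
  π0 := fun ρ h1 => lt_min (h.π0 ρ h1) (h'.π0 ρ h1)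
  κ0 := fun ρ π h1 h2 => lt_min (h.κ0 ρ π h1 h2) (h'.κ0 ρ π h1 h2)
  ε0 := fun ρ π κ h1 h2 h3 => lt_min (h.ε0 ρ π κ h1 h2 h3) (h'.ε0 ρ π κ h1 h2 h3)
  ζ0 := fun ρ π κ ε h1 h2 h3 h4 =>
    lt_min (h.ζ0 ρ π κ ε h1 h2 h3 h4) (h'.ζ0 ρ π κ ε h1 h2 h3 h4)
  θ0 := fun ρ π κ ε ζ h1 h2 h3 h4 h5 =>
    lt_min (h.θ0 ρ π κ ε ζ h1 h2 h3 h4 h5) (h'.θ0 ρ π κ ε ζ h1 h2 h3 h4 h5)

lemma adm_left {T T' : Thr} {s : Scl} (h : Adm (thrMin T T') s) : Adm T s where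
  ρ := h.ρ
  π := ⟨h.π.1, h.π.2.trans (min_le_left _ _)⟩
  κ := ⟨h.κ.1, h.κ.2.trans (min_le_left _ _)⟩
  ε := ⟨h.ε.1, h.ε.2.trans (min_le_left _ _)⟩
  ζ := ⟨h.ζ.1, h.ζ.2.trans (min_le_left _ _)⟩
  θ := ⟨h.θ.1, h.θ.2.trans (min_le_left _ _)⟩

lemma adm_right {T T' : Thr} {s : Scl} (h : Adm (thrMin T T') s) : Adm T' s where
  ρ := h.ρ
  π := ⟨h.π.1, h.π.2.trans (min_le_right _ _)⟩
  κ := ⟨h.κ.1, h.κ.2.trans (min_le_right _ _)⟩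
  ε := ⟨h.ε.1, h.ε.2.trans (min_le_right _ _)⟩
  ζ := ⟨h.ζ.1, h.ζ.2.trans (min_le_right _ _)⟩
  θ := ⟨h.θ.1, h.θ.2.trans (min_le_right _ _)⟩

/-- two blocks together -/
lemma blk_and {Q Q' : ∀ (V : Type u) [Fintype V] (N J : ℕ), Con → ℝ → OD V N J → Prop}
    (h : Blk.{u} Q) (h' : Blk.{u} Q') :
    Blk.{u} (fun V _ N J k c' D => Q V N J k c' D ∧ Q' V N J k c' D) := by
  intro k hk
  obtain ⟨T, hT, H⟩ := h k hk
  obtain ⟨T', hT', H'⟩ := h' k hk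
  refine ⟨thrMin T T', thrMin_pos hT hT', ?_⟩
  intro J S c' hS hc hc2
  obtain ⟨d0, h0⟩ := H J S c' (fun s => adm_left (hS s)) hc hc2
  obtain ⟨d1, h1⟩ := H' J S c' (fun s => adm_right (hS s)) hc hc2
  refine ⟨max d0 d1, ?_⟩
  intro V _ N D hd hSD HD
  exact ⟨h0 D ((le_max_left _ _).trans hd) hSD HD, h1 D ((le_max_right _ _).trans hd) hSD HD⟩

/-- consequences of a block, for large `d` -/
lemma blk_mono {Q Q' : ∀ (V : Type u) [Fintype V] (N J : ℕ), Con → ℝ → OD V N J → Prop}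
    (h : Blk.{u} Q) (d0 : ℕ)
    (h' : ∀ (k : Con), k.Ok → ∀ (c' : ℝ), 0 < c' → c' ≤ 1 / 2 →
      ∀ {V : Type u} [Fintype V] {N J : ℕ} (D : OD V N J), d0 ≤ D.d → Hyp k c' D →
      Q V N J k c' D → Q' V N J k c' D) : Blk.{u} Q' := by
  intro k hk
  obtain ⟨T, hT, H⟩ := h k hk
  refine ⟨T, hT, ?_⟩
  intro J S c' hS hc hc2
  obtain ⟨d1, h1⟩ := H J S c' hS hc hc2
  refine ⟨max d0 d1, ?_⟩
  intro V _ N D hd hSD HD
  exact h' k hk c' hc hc2 D ((le_max_left _ _).trans hd) HD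
    (h1 D ((le_max_right _ _).trans hd) hSD HD)

lemma m0_pos {V : Type u} [Fintype V] {N J : ℕ} {k : Con} {c' : ℝ} {D : OD V N J}
    (hc2 : c' ≤ 1 / 2) (hd : 1 ≤ D.d) (H : Hyp k c' D) : 0 < D.m0 := by
  rw [H.m0]
  apply Nat.floor_pos.mpr
  apply Real.one_le_rpow
  · exact_mod_cast hd
  · linarith

/-- the six packages -/
def pks {V : Type u} [Fintype V] {N J : ℕ} (D : OD V N J) (c' : ℝ) (U : Finset V) (cR : V → ℕ)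
    (q : Fin N → Bool → Bool → ℕ → ℕ) : Fin 6 → (D.IV → ℕ) → Prop
  | 0 => fun x => D.I0 (D.rgX x)
  | 1 => fun x => D.I1 U cR (D.rgX x) (D.tauX x)
  | 2 => fun x => D.I2 q (D.sgX x)
  | 3 => fun x => D.I3 (D.tauX x)
  | 4 => fun x => D.I4 c' q (D.tauX x) (D.sgX x)
  | 5 => fun x => D.I5 c' q (D.tauX x) (D.sgX x)

theorem stmt_SAS (hIDL : Stmt_IDL.{u}) (hHRD : Stmt_HRD.{u}) (hRSV : Stmt_RSV.{u})
    (hDEM : Stmt_DEM.{u}) (hAVB : Stmt_AVB.{u}) (hI0 : Stmt_IDX0.{u}) (hI1 : Stmt_IDX1.{u})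
    (hI2 : Stmt_IDX2.{u}) (hI3 : Stmt_IDX3.{u}) (hI4 : Stmt_IDX4.{u}) (hI5 : Stmt_IDX5.{u})
    (hGRD : Stmt_GRD.{u}) (hLRG : Stmt_LRG.{u}) : Stmt_SAS.{u} := by
  obtain ⟨d0, h0⟩ := hIDL 6 (1 / 200) 40 (by norm_num) (by norm_num) (by norm_num)
  have hall := blk_and hHRD (blk_and hRSV (blk_and hDEM (blk_and hAVB (blk_and hI0 (blk_and hI1
    (blk_and hI2 (blk_and hI3 (blk_and hI4 (blk_and hI5 (blk_and hGRD hLRG))))))))))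
  refine blk_mono hall (max d0 1) ?_
  intro k hk c' hc hc2 V _ N J D hd HD
  rintro ⟨h1, h2, h3, h4, i0, i1, i2, i3, i4, i5, h5, h6⟩
  have hd0 : d0 ≤ D.d := (le_max_left _ _).trans hd
  have hd1 : 1 ≤ D.d := (le_max_right _ _).trans hd
  have hm0 : 0 < D.m0 := m0_pos hc2 hd1 HD
  obtain ⟨U, cR, hU⟩ := h2 h1
  obtain ⟨q, hq⟩ := h3
  have hA := h4 U cR q hU hq
  have hmv : ∀ i, 0 < D.mv i := by
    intro i
    rcases i with v | s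
    · exact Nat.mul_pos hm0 hd1
    · exact hm0
  have hpk : ∀ j, IPk ((D.d : ℝ) ^ (40 : ℝ)) (1 / 200) ((Real.log D.d) ^ 2) D.mv
      (pks D c' U cR q j) := by
    intro j
    fin_cases j
    · exact i0
    · exact i1 U cR
    · exact i2 U cR q hq hA
    · exact i3
    · exact i4 q hq
    · exact i5 q hq
  obtain ⟨x, hx, hP⟩ := h0 D.d D.mv (pks D c' U cR q) hd0 hmv hpk
  have hσ : ∀ n β i b k', D.sgX x n β i b k' < D.m0 := by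
    intro n β i b k'
    unfold OD.sgX
    split_ifs with h
    · exact hx (Sum.inr (n, β, i, ⟨b, h.1⟩, ⟨k', h.2⟩))
    · exact hm0
  have hτ : ∀ v, D.tauX x v < D.m0 := fun v => Nat.mod_lt _ hm0
  have j0 : D.I0 (D.rgX x) := hP 0
  have j1 : D.I1 U cR (D.rgX x) (D.tauX x) := hP 1
  have j2 : D.I2 q (D.sgX x) := hP 2
  have j3 : D.I3 (D.tauX x) := hP 3
  have j4 : D.I4 c' q (D.tauX x) (D.sgX x) := hP 4
  have j5 : D.I5 c' q (D.tauX x) (D.sgX x) := hP 5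
  obtain ⟨Sl, hSl⟩ := h5 U cR q (D.rgX x) (D.tauX x) (D.sgX x) hU hq hA hσ j1 j2 j3 j4
  obtain ⟨Lg, hLg⟩ := h6 U cR q (D.rgX x) (D.tauX x) (D.sgX x) Sl hU hq hA hσ hτ j1 j4 hSl
  exact ⟨U, cR, q, D.rgX x, D.tauX x, D.sgX x, Sl, Lg, hU, hq, j0, j5, hSl, hLg⟩

end Pool.Agent.Work.MP_db9399_oc_helper39
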